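import Pool.Agent.N684.HS.E

/-!
MP_fa745a_co: `had₂ ≥ χ` is preserved by substitution and by gluing along cliques, when it is asked
of all clique inflations; it holds for all graphs built in these ways from perfect graphs and
`2K₂`-free graphs; and Q1 reduces to clique inflations of prime imperfect graphs that contain `2K₂`
and have no clique cutset.
-/

set_option autoImplicit false

namespace Pool.Agent.Results.MP_fa745a_co.PrimeReduction

/-- `K_k` is a minor of `G` with branch sets of at most two vertices: every branch set is a vertex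
or (the vertex set of) an edge. So this says `had₂(G) ≥ k`. -/
def HasSmallCliqueMinor {V : Type} (G : SimpleGraph V) (k : ℕ) : Prop :=
  ∃ f : Fin k → Set V,
    (∀ i, (f i).encard ≤ 2) ∧
    (∀ i, (G.induce (f i)).Connected) ∧
    (∀ i j, i ≠ j → Disjoint (f i) (f j)) ∧
    (∀ i j, i ≠ j → ∃ u ∈ f i, ∃ v ∈ f j, G.Adj u v)

/-- `had₂(G) ≥ χ(G)`: if `G` is not `k`-colourable then `had₂(G) ≥ k + 1`. -/
def HadTwo {V : Type} (G : SimpleGraph V) : Prop :=
  ∀ k : ℕ, ¬ G.Colorable k → HasSmallCliqueMinor G (k + 1)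

/-- `G` is a clique inflation of an induced subgraph of `B`: there is a map `π` from the vertices
of `G` to those of `B` whose fibres are cliques of `G`, and two vertices of different fibres are
adjacent in `G` exactly when their images are adjacent in `B`. -/
def IsInflation {V W : Type} (G : SimpleGraph V) (B : SimpleGraph W) : Prop :=
  ∃ π : V → W, ∀ x y, G.Adj x y ↔ x ≠ y ∧ (π x = π y ∨ B.Adj (π x) (π y))

/-- `had₂(G) ≥ χ(G)` for every finite clique inflation `G` of `B`. -/
def InflatedHadTwo {W : Type} (B : SimpleGraph W) : Prop :=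
  ∀ (V : Type) [Finite V] (G : SimpleGraph V), IsInflation G B → HadTwo G

/-- `B` is `2K₂`-free: any two disjoint edges of `B` are joined by an edge of `B`. -/
def TwoK2Free {W : Type} (B : SimpleGraph W) : Prop :=
  ∀ a b c d : W, B.Adj a b → B.Adj c d → a ≠ c → a ≠ d → b ≠ c → b ≠ d →
    B.Adj a c ∨ B.Adj a d ∨ B.Adj b c ∨ B.Adj b d

/-- `B` is perfect: every set `S` of vertices whose induced subgraph is not `k`-colourable contains
a clique with `k + 1` vertices. -/
def Perfect {W : Type} (B : SimpleGraph W) : Prop :=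
  ∀ (S : Set W) (k : ℕ), ¬ (B.induce S).Colorable k →
    ∃ Q : Finset W, (∀ u ∈ Q, u ∈ S) ∧ (∀ u ∈ Q, ∀ v ∈ Q, u ≠ v → B.Adj u v) ∧ Q.card = k + 1

/-- `B` is prime: every homogeneous set `M` (no vertex outside `M` distinguishes two vertices of
`M`) has at most one vertex or contains all vertices. -/
def IsPrime {W : Type} (B : SimpleGraph W) : Prop :=
  ∀ M : Set W, (∀ x, x ∉ M → ∀ y ∈ M, ∀ z ∈ M, (B.Adj x y ↔ B.Adj x z)) →
    (∀ y ∈ M, ∀ z ∈ M, y = z) ∨ ∀ x, x ∈ M

/-- `B` has no clique cutset (the empty set included, so `B` is connected): if two sets `S` and `T`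
cover the vertices, `S ∩ T` is a clique and there is no edge between `S \ T` and `T \ S`, then `S`
or `T` contains all vertices. -/
def NoCliqueCutset {W : Type} (B : SimpleGraph W) : Prop :=
  ∀ S T : Set W, (∀ x, x ∈ S ∨ x ∈ T) → (∀ x ∈ S, x ∈ T → ∀ y ∈ S, y ∈ T → x ≠ y → B.Adj x y) →
    (∀ x ∈ S, x ∉ T → ∀ y ∈ T, y ∉ S → ¬ B.Adj x y) → (∀ x, x ∈ S) ∨ ∀ x, x ∈ T

/-- `G` has no induced odd cycle with seven or more vertices. -/
def LongOddFree {V : Type} (G : SimpleGraph V) : Prop :=
  ∀ k : ℕ, 3 ≤ k → IsEmpty (SimpleGraph.Embedding (SimpleGraph.cycleGraph (2 * k + 1)) G)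

/-- (1) Let `B` be a finite graph such that every induced subgraph of `B` that is prime and has no
clique cutset is perfect or `2K₂`-free. Then `had₂(G) ≥ χ(G)` for every finite clique inflation `G`
of `B`, and for `G = B`.

(2) The property that all finite clique inflations `G` satisfy `had₂(G) ≥ χ(G)` is preserved by
substitution (the fibres of `π` are the substituted graphs) and by gluing along a clique.

(3) Q1 (`had₂(G) ≥ χ(G)` for all finite graphs `G` without induced odd cycles of length at least
seven) holds if and only if `had₂(G) ≥ χ(G)` for all finite clique inflations `G` of the finite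
graphs `B` without such cycles that are prime, have no clique cutset, are not perfect and are not
`2K₂`-free. -/
theorem result :
    (∀ (W : Type) [Finite W] (B : SimpleGraph W),
      (∀ U : Set W, IsPrime (B.induce U) → NoCliqueCutset (B.induce U) →
        Perfect (B.induce U) ∨ TwoK2Free (B.induce U)) → InflatedHadTwo B ∧ HadTwo B) ∧
    ((∀ (V W : Type) (G : SimpleGraph V) (B : SimpleGraph W) (π : V → W),
      (∀ x y, π x ≠ π y → (G.Adj x y ↔ B.Adj (π x) (π y))) → InflatedHadTwo B →
      (∀ b : W, InflatedHadTwo (G.induce {x | π x = b})) → InflatedHadTwo G) ∧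
    (∀ (W : Type) (B : SimpleGraph W) (S T : Set W), (∀ x, x ∈ S ∨ x ∈ T) →
      (∀ x ∈ S, x ∈ T → ∀ y ∈ S, y ∈ T → x ≠ y → B.Adj x y) →
      (∀ x ∈ S, x ∉ T → ∀ y ∈ T, y ∉ S → ¬ B.Adj x y) →
      InflatedHadTwo (B.induce S) → InflatedHadTwo (B.induce T) → InflatedHadTwo B)) ∧
    ((∀ (V : Type) [Finite V] (G : SimpleGraph V), LongOddFree G → HadTwo G) ↔
      (∀ (W : Type) [Finite W] (B : SimpleGraph W), LongOddFree B → IsPrime B →
        NoCliqueCutset B → ¬ Perfect B → ¬ TwoK2Free B → InflatedHadTwo B)) := by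
  have hP : ∀ (W : Type) (B : SimpleGraph W), TwoK2Free B → N684.HI.P2 B := by
    intro W B hB a b c d hab hcd
    by_cases h1 : a = c
    · subst h1; exact Or.inr (Or.inl hcd)
    by_cases h2 : a = d
    · subst h2; exact Or.inl hcd.symm
    by_cases h3 : b = c
    · subst h3; exact Or.inl hab
    by_cases h4 : b = d
    · subst h4; exact Or.inr (Or.inl hab)
    exact hB a b c d hab hcd h1 h2 h3 h4
  have hto : ∀ (W : Type) (B : SimpleGraph W), InflatedHadTwo B → N684.HS.Good B := by
    intro W B h V _ G π hI k hk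
    exact h V G ⟨π, hI⟩ k hk
  have hfrom : ∀ (W : Type) (B : SimpleGraph W), N684.HS.Good B → InflatedHadTwo B := by
    rintro W B h V _ G ⟨π, hI⟩ k hk
    exact h V G π hI k hk
  refine ⟨?_, ⟨?_, ?_⟩, ?_, ?_⟩
  · intro W _ B H
    have hg : N684.HS.Good B := by
      refine N684.HS.reduce_self B (fun U h1 h2 => ?_)
      rcases H U h1 h2 with h | h
      · exact N684.HS.good_of_perf _ h
      · exact N684.HS.good_of_p2 _ (hP _ _ h)
    exact ⟨hfrom W B hg, fun k hk => N684.HS.good_self B hg k hk⟩
  · intro V W G B π hG hB hfib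
    exact hfrom V G (N684.HS.good_subst G B (hto W B hB) π hG (fun b => hto _ _ (hfib b)))
  · intro W B S T h1 h2 h3 hS hT
    exact hfrom W B (N684.HS.good_glue B S T h1 h2 h3 (hto _ _ hS) (hto _ _ hT))
  · intro h W _ B hB _ _ _ _ V _ G hG
    obtain ⟨π, hI⟩ := hG
    exact h V G (N684.HS.lof_inf G B π hI hB)
  · intro h V _ G hG k hk
    refine N684.HS.good_self G (N684.HS.reduce_self G (fun U h1 h2 => ?_)) k hk
    by_cases hp : Perfect (G.induce U)
    · exact N684.HS.good_of_perf _ hp
    by_cases ht : TwoK2Free (G.induce U)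
    · exact N684.HS.good_of_p2 _ (hP _ _ ht)
    exact hto _ _ (h U (G.induce U) (N684.HS.lof_induce G hG U) h1 h2 hp ht)

end Pool.Agent.Results.MP_fa745a_co.PrimeReduction
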